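import Pool.Agent.V11300.PR.Acyclic

/-!
# MP_a69bcc_pr, Q1 (negative answer)

For every even `s ≥ 1000000` there is a full-support, non-uniform probability vector on `s` letters
for which no three words form a cycle.
-/

namespace Pool.Agent.Results.MP_a69bcc_pr.NoCycle

open Pool.Agent.V11300.PR

/-- the class of a letter -/
def cl (N : ℕ) (i : Fin (2 * N)) : Bool := decide (i.val < N)

/-- the two-valued vector -/
noncomputable def vec (N : ℕ) (hN : 0 < N) (θ : ℝ) (h0 : 0 ≤ θ) (h1 : θ ≤ 1 / 2) :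
    ProbVec (Fin (2 * N)) where
  p := fun i => q (2 * N : ℝ) θ (cl N i)
  nonneg := fun i => (q_pos (by positivity) h0 h1 _).le
  sum_eq := by
    have hN' : (N : ℝ) ≠ 0 := by positivity
    have h2 : ∑ i : Fin (2 * N), q (2 * N : ℝ) θ (cl N i) =
        ∑ i ∈ Finset.range (2 * N), q (2 * N : ℝ) θ (decide (i < N)) :=
      Fin.sum_univ_eq_sum_range (fun i => q (2 * N : ℝ) θ (decide (i < N))) (2 * N)
    rw [h2, two_mul N, Finset.sum_range_add]
    have e1 : ∑ i ∈ Finset.range N, q (2 * N : ℝ) θ (decide (i < N)) =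
        ∑ i ∈ Finset.range N, (1 + θ) / (2 * N : ℝ) := by
      refine Finset.sum_congr rfl fun i hi => ?_
      rw [Finset.mem_range] at hi
      simp [q, hi]
    have e2 : ∑ i ∈ Finset.range N, q (2 * N : ℝ) θ (decide (N + i < N)) =
        ∑ i ∈ Finset.range N, (1 - θ) / (2 * N : ℝ) := by
      refine Finset.sum_congr rfl fun i hi => ?_
      have : ¬ N + i < N := by omega
      simp [q, this]
    rw [e1, e2, Finset.sum_const, Finset.sum_const, Finset.card_range, nsmul_eq_mul,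
      nsmul_eq_mul]
    field_simp
    ring

theorem result :
    (∀ N : ℕ, 500000 ≤ N → ∃ v : ProbVec (Fin (2 * N)), (∀ i, 0 < v.p i) ∧
      (∃ i j, v.p i ≠ v.p j) ∧
      ∀ A B C : List (Fin (2 * N)), A ≠ [] → B ≠ [] → C ≠ [] →
        ¬ (1 / 2 < winProb v A B ∧ 1 / 2 < winProb v B C ∧ 1 / 2 < winProb v C A)) ∧
    ¬ (∀ s : ℕ, 2 ≤ s → ∀ v : ProbVec (Fin s), (∀ i, 0 < v.p i) → (∃ i j, v.p i ≠ v.p j) →
      ∃ A B C : List (Fin s), A ≠ [] ∧ B ≠ [] ∧ C ≠ [] ∧
        1 / 2 < winProb v A B ∧ 1 / 2 < winProb v B C ∧ 1 / 2 < winProb v C A) := by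
  have main : ∀ N : ℕ, 500000 ≤ N → ∃ v : ProbVec (Fin (2 * N)), (∀ i, 0 < v.p i) ∧
      (∃ i j, v.p i ≠ v.p j) ∧
      ∀ A B C : List (Fin (2 * N)), A ≠ [] → B ≠ [] → C ≠ [] →
        ¬ (1 / 2 < winProb v A B ∧ 1 / 2 < winProb v B C ∧ 1 / 2 < winProb v C A) := by
    intro N hN
    have hs : (1000000 : ℝ) ≤ 2 * N := by
      have : (500000 : ℝ) ≤ N := by exact_mod_cast hN
      linarith
    obtain ⟨θ, hθ, hgood⟩ := exists_good hs
    have h0 : (0:ℝ) ≤ θ := by linarith [hθ.1]
    set v := vec N (by omega) θ h0 hθ.2 with hv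
    have hp : ∀ a, v.p a = q (2 * N : ℝ) θ (cl N a) := fun a => rfl
    have hpos : ∀ a, 0 < v.p a := fun a => by
      rw [hp]; exact q_pos (by linarith) h0 hθ.2 _
    refine ⟨v, hpos, ⟨⟨0, by omega⟩, ⟨N, by omega⟩, ?_⟩, ?_⟩
    · rw [hp, hp]
      have c1 : cl N ⟨0, by omega⟩ = true := by simp [cl]; omega
      have c2 : cl N ⟨N, by omega⟩ = false := by simp [cl]
      rw [c1, c2]
      simp only [q, if_true, Bool.false_eq_true, if_false]
      intro h
      rw [div_left_inj' (by linarith)] at h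
      linarith [hθ.1]
    · rintro A B C hA hB hC ⟨h1, h2, h3⟩
      have key : ∀ A B : List (Fin (2 * N)), A ≠ [] → B ≠ [] → 1 / 2 < winProb v A B →
          EE v.p A < EE v.p B := by
        intro A B hA hB h
        by_contra hcon
        push Not at hcon
        have h4 := adv_nonpos hs hθ hgood hp v.sum_eq hA hB hcon
        have h5 := winProb_eq_adv v hpos A B hA hB
        linarith
      have e1 := key A B hA hB h1
      have e2 := key B C hB hC h2
      have e3 := key C A hC hA h3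
      linarith
  refine ⟨main, fun h => ?_⟩
  obtain ⟨v, h1, h2, h3⟩ := main 500000 le_rfl
  obtain ⟨A, B, C, hA, hB, hC, hcyc⟩ := h (2 * 500000) (by norm_num) v h1 h2
  exact h3 A B C hA hB hC hcyc

end Pool.Agent.Results.MP_a69bcc_pr.NoCycle
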